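import Pool.Agent.H44.MS.Basics

set_option autoImplicit false

namespace Pool.Agent.H84.MS

open Finset Real Pool.Agent.H44.MS

/-- The value at a prime of the multiplicative function. -/
theorem gv_prime (v : ℝ) (z p : ℕ) (hp : p.Prime) :
    ic (Good 0 z p) * v ^ Om z p = if z < p then v else if p % 4 = 3 then 0 else 1 := by
  by_cases hz : z < p
  · rw [if_pos hz, Om_prime z hp, if_pos hz, pow_one, ic_pos, one_mul]
    intro q hq _ _ h2 hd
    have := (Nat.prime_dvd_prime_iff_eq hq hp).1 hd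
    omega
  · rw [if_neg hz, Om_prime z hp, if_neg hz, pow_zero, mul_one]
    by_cases h3 : p % 4 = 3
    · rw [if_pos h3, ic_neg]
      intro h
      exact h p hp h3 hp.pos (by omega) dvd_rfl
    · rw [if_neg h3, ic_pos]
      intro q hq hq3 _ _ hd
      have := (Nat.prime_dvd_prime_iff_eq hq hp).1 hd
      rw [this] at hq3
      exact h3 hq3

theorem gv_split {z x : ℕ} (hz : 2 ≤ z) (hx : z ≤ x) (f : ℕ → ℝ) (h1 : f 1 = 0) :
    ∑ p ∈ Icc 1 x, f p = f 2 + ∑ p ∈ Ioc 2 z, f p + ∑ p ∈ Ioc z x, f p := by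
  have e1 : ∑ p ∈ Icc 1 x, f p = ∑ p ∈ Ioc 0 x, f p := rfl
  have e2 : ∑ p ∈ Ioc 0 x, f p = ∑ p ∈ Ioc 0 z, f p + ∑ p ∈ Ioc z x, f p :=
    (Finset.sum_Ioc_consecutive f (Nat.zero_le z) hx).symm
  have e3 : ∑ p ∈ Ioc 0 z, f p = ∑ p ∈ Ioc 0 2, f p + ∑ p ∈ Ioc 2 z, f p :=
    (Finset.sum_Ioc_consecutive f (Nat.zero_le 2) hz).symm
  have e4 : ∑ p ∈ Ioc 0 2, f p = f 1 + f 2 := by
    have : Ioc 0 2 = ({1, 2} : Finset ℕ) := by decide
    rw [this, Finset.sum_pair (by norm_num)]
  rw [e1, e2, e3, e4, h1]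
  ring

theorem pf_GV (h1 : T_HR) (h2 : T_MER) : T_GV := by
  obtain ⟨C1, hC1, hHR⟩ := h1 (3 / 2) (by norm_num)
  obtain ⟨C, hC, hM⟩ := h2
  have hl2 : 0 < Real.log 2 := Real.log_pos one_lt_two
  set K : ℝ := 1 / 2 + (1 / 2) * (-Real.log (Real.log 2) + 2 * (C / Real.log 2)) +
    3 / 2 * (C / Real.log 2) with hK
  refine ⟨C1 * Real.exp K, by positivity, ?_⟩
  intro v hv1 hv2 z x hz hx
  have hzR : (2 : ℝ) ≤ z := by exact_mod_cast hz
  have hxR : (z : ℝ) ≤ x := by exact_mod_cast hx
  have hlz : Real.log 2 ≤ Real.log z := Real.log_le_log (by norm_num) hzR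
  have hlz0 : 0 < Real.log z := lt_of_lt_of_le hl2 hlz
  have hlx : Real.log z ≤ Real.log x := Real.log_le_log (by linarith) hxR
  have hlx0 : 0 < Real.log x := lt_of_lt_of_le hlz0 hlx
  set h : ℕ → ℝ := fun n => ic (Good 0 z n) * v ^ Om z n with hh
  have hpr : ∀ p : ℕ, p.Prime → h p = if z < p then v else if p % 4 = 3 then 0 else 1 :=
    fun p hp => gv_prime v z p hp
  have hb := hHR h (by
      simp only [hh]
      rw [ic_pos (good_one 0 z), Om_one, pow_zero, mul_one]) (by
      intro m n hm hn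
      simp only [hh]
      rw [Om_mul z hm.ne' hn.ne', pow_add, ic_congr (good_mul 0 z m n), ic_and]
      ring) (by
      intro p hp
      rw [hpr p hp]
      have hp2 : (2 : ℝ) ≤ p := by exact_mod_cast hp.two_le
      split_ifs
      · exact ⟨by linarith, by linarith, by linarith⟩
      · exact ⟨le_refl _, by norm_num, by linarith⟩
      · exact ⟨by norm_num, by norm_num, by linarith⟩) x (by omega)
  refine hb.trans ?_
  -- the exponent
  have hexp : ∑ p ∈ Icc 1 x, ic p.Prime * h p / p ≤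
      K + 1 / 2 * Real.log (Real.log z) +
        v * (Real.log (Real.log x) - Real.log (Real.log z)) := by
    rw [gv_split hz hx (fun p => ic p.Prime * h p / p) (by
      rw [ic_neg Nat.not_prime_one]; simp)]
    have e2 : ic (2 : ℕ).Prime * h 2 / (2 : ℕ) ≤ 1 / 2 := by
      have h2 : h 2 ≤ 1 := by
        rw [hpr 2 Nat.prime_two, if_neg (by omega)]
        norm_num
      rw [ic_pos Nat.prime_two]
      push_cast
      linarith
    have e3 : ∑ p ∈ Ioc 2 z, ic p.Prime * h p / p =
        1 / 2 * (∑ p ∈ Ioc 2 z, ic p.Prime / p + ∑ p ∈ Ioc 2 z, ic p.Prime * chi p / p) := by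
      rw [← Finset.sum_add_distrib, Finset.mul_sum]
      refine Finset.sum_congr rfl fun p hp => ?_
      rw [Finset.mem_Ioc] at hp
      by_cases hpp : p.Prime
      · rw [hpr p hpp, if_neg (by omega), ic_pos hpp]
        have hodd : p % 2 = 1 := hpp.eq_two_or_odd.resolve_left (by omega)
        by_cases h3 : p % 4 = 3
        · rw [if_pos h3, chi_of_three h3]
          ring
        · rw [if_neg h3, chi_of_one (by omega)]
          ring
      · rw [ic_neg hpp]
        ring
    have e4 : ∑ p ∈ Ioc z x, ic p.Prime * h p / p = v * ∑ p ∈ Ioc z x, ic p.Prime / p := by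
      rw [Finset.mul_sum]
      refine Finset.sum_congr rfl fun p hp => ?_
      rw [Finset.mem_Ioc] at hp
      by_cases hpp : p.Prime
      · rw [hpr p hpp, if_pos hp.1, ic_pos hpp]
        ring
      · rw [ic_neg hpp]
        ring
    obtain ⟨m1, m2⟩ := hM 2 z le_rfl hz
    obtain ⟨m3, -⟩ := hM z x hz hx
    have m1' := (abs_le.1 m1).2
    have m2' := (abs_le.1 m2).2
    have m3' := (abs_le.1 m3).2
    have hCz : C / Real.log z ≤ C / Real.log 2 := div_le_div_of_nonneg_left hC.le hl2 hlz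
    have hC0 : 0 ≤ C / Real.log 2 := by positivity
    have hv0 : 0 ≤ v := by linarith
    rw [e3, e4]
    have m4 : v * ∑ p ∈ Ioc z x, ic p.Prime / (p : ℝ) ≤
        v * (Real.log (Real.log x) - Real.log (Real.log z)) + 3 / 2 * (C / Real.log 2) := by
      have h5 : ∑ p ∈ Ioc z x, ic p.Prime / (p : ℝ) ≤
          (Real.log (Real.log x) - Real.log (Real.log z)) + C / Real.log 2 := by linarith
      calc v * ∑ p ∈ Ioc z x, ic p.Prime / (p : ℝ)
          ≤ v * ((Real.log (Real.log x) - Real.log (Real.log z)) + C / Real.log 2) :=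
            mul_le_mul_of_nonneg_left h5 hv0
        _ = v * (Real.log (Real.log x) - Real.log (Real.log z)) + v * (C / Real.log 2) := by ring
        _ ≤ _ := by
            have := mul_le_mul_of_nonneg_right hv2 hC0
            linarith
    rw [hK]
    push_cast at m1' m2'
    linarith
  have hE : Real.exp (∑ p ∈ Icc 1 x, ic p.Prime * h p / p) ≤
      Real.exp K * √(Real.log z) * (Real.log x / Real.log z) ^ v := by
    refine (Real.exp_le_exp.2 hexp).trans (le_of_eq ?_)
    rw [Real.exp_add, Real.exp_add]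
    congr 1
    · congr 1
      rw [Real.sqrt_eq_rpow, Real.rpow_def_of_pos hlz0]
      congr 1
      ring
    · rw [Real.rpow_def_of_pos (by positivity), Real.log_div hlx0.ne' hlz0.ne']
      congr 1
      ring
  have hx0 : (0 : ℝ) ≤ x := Nat.cast_nonneg x
  calc C1 * x / Real.log x * Real.exp (∑ p ∈ Icc 1 x, ic p.Prime * h p / p)
      ≤ C1 * x / Real.log x *
          (Real.exp K * √(Real.log z) * (Real.log x / Real.log z) ^ v) :=
        mul_le_mul_of_nonneg_left hE (by positivity)
    _ = C1 * Real.exp K * x / √(Real.log z) * (Real.log x / Real.log z) ^ (v - 1) := by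
        rw [Real.rpow_sub_one (by positivity)]
        have hs : √(Real.log z) * √(Real.log z) = Real.log z := Real.mul_self_sqrt hlz0.le
        have hs0 : 0 < √(Real.log z) := Real.sqrt_pos.2 hlz0
        field_simp
        rw [sq, hs]

end Pool.Agent.H84.MS
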